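import Pool.Agent.Helper43.EV.Goals

/-!
# Project EV, packet PIA: the projection from `z`
-/

set_option autoImplicit false

namespace Pool.Agent.Helper7.EV.PIA

open Module Pool.Agent.Helper43.EV
open Pool.Agent.Helper3.QGr (prj prj_coe prj_z prj_mem finrank_map_prj)

section

variable {F V : Type} [Field F] [Finite F] [AddCommGroup V] [Module F V] [FiniteDimensional F V]

/-- images under a linear automorphism which fixes `z` avoid `z` -/
lemma notMem_map {z : V} (e : V ≃ₗ[F] V) (he : e z = z) {X : Submodule F V} (h : z ∉ X) :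
    z ∉ X.map (e : V →ₗ[F] V) := by
  rintro ⟨x, hx, hxz⟩
  have h1 : e x = e z := by rw [he]; exact hxz
  exact h (e.injective h1 ▸ hx)

/-- `prj` after a map which does not change `prj` -/
lemma map_prj_of_eq (ψ : Dual F V) (z : V) (hz : ψ z = 1) (e : V ≃ₗ[F] V)
    (he : ∀ x, prj ψ z hz (e x) = prj ψ z hz x) (X : Submodule F V) :
    (X.map (e : V →ₗ[F] V)).map (prj ψ z hz) = X.map (prj ψ z hz) := by
  rw [← Submodule.map_comp]
  congr 1
  exact LinearMap.ext he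

/-- `prj` after a lift -/
lemma map_prj_of_lift (ψ : Dual F V) (z : V) (hz : ψ z = 1) (e : V ≃ₗ[F] V)
    (e' : LinearMap.ker ψ ≃ₗ[F] LinearMap.ker ψ)
    (he : ∀ x, prj ψ z hz (e x) = e' (prj ψ z hz x)) (X : Submodule F V) :
    (X.map (e : V →ₗ[F] V)).map (prj ψ z hz) =
      (X.map (prj ψ z hz)).map (e' : LinearMap.ker ψ →ₗ[F] LinearMap.ker ψ) := by
  rw [← Submodule.map_comp, ← Submodule.map_comp]
  congr 1
  exact LinearMap.ext he

end

/-- **PIA** -/
theorem t : Pool.Agent.Helper43.EV.PIA := by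
  intro F _ _ V _ _ _ ψ z hz s hs a b
  have key : ∀ v : ({X : Fl F V a b | z ∉ X.1.2} : Set (Fl F V a b)), z ∉ v.1.1.1 :=
    fun v h => v.2 (v.1.2.1 h)
  refine ⟨fun v => ⟨(v.1.1.1.map (prj ψ z hz), v.1.1.2.map (prj ψ z hz)),
    Submodule.map_mono v.1.2.1, ?_, ?_⟩, ?_, ?_⟩
  · rw [(finrank_map_prj ψ z hz v.1.1.1).2 (key v)]; exact v.1.2.2.1
  · rw [(finrank_map_prj ψ z hz v.1.1.2).2 v.2]; exact v.1.2.2.2
  · rintro g ⟨φ, hφ⟩ v
    have hgz : (g : V ≃ₗ[F] V) z = z := by rw [hφ, prj_z, map_zero, zero_smul, add_zero]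
    have hp : ∀ x, prj ψ z hz ((g : V ≃ₗ[F] V) x) = prj ψ z hz x := by
      intro x
      rw [hφ, map_add, map_smul, prj_z, smul_zero, add_zero]
    refine ⟨notMem_map (g : V ≃ₗ[F] V) hgz v.2, ?_⟩
    apply Subtype.ext
    apply Prod.ext
    · exact map_prj_of_eq ψ z hz (g : V ≃ₗ[F] V) hp v.1.1.1
    · exact map_prj_of_eq ψ z hz (g : V ≃ₗ[F] V) hp v.1.1.2
  · intro g v
    have hgz : (s g : V ≃ₗ[F] V) z = z := by
      rw [hs, prj_z, map_zero, hz, one_smul]; simp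
    have hp : ∀ x, prj ψ z hz ((s g : V ≃ₗ[F] V) x) =
        (g : LinearMap.ker ψ ≃ₗ[F] LinearMap.ker ψ) (prj ψ z hz x) := by
      intro x
      rw [hs, map_add, map_smul, prj_z, smul_zero, add_zero, prj_mem]
    refine ⟨notMem_map (s g : V ≃ₗ[F] V) hgz v.2, ?_⟩
    apply Subtype.ext
    apply Prod.ext
    · exact map_prj_of_lift ψ z hz (s g : V ≃ₗ[F] V) _ hp v.1.1.1
    · exact map_prj_of_lift ψ z hz (s g : V ≃ₗ[F] V) _ hp v.1.1.2

end Pool.Agent.Helper7.EV.PIA
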